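import Mathlib
import Pool.Agent.H31.MaxDet

set_option autoImplicit false
open Pool.Agent.H31.Mag

namespace Pool.Agent.Results.MP_3489b6_co.Lower

theorem result :
    (∀ (d n : ℕ) (G : SimpleGraph (Fin n)) [DecidableRel G.Adj], 3 ≤ d → 0 < n →
      (∀ v, d ≤ G.degree v) → d - 2 * √(d - 1) ≤ nu G) ∧
    ∃ c : ℝ, 0 < c ∧ ∀ (n : ℕ) (G : SimpleGraph (Fin n)) [DecidableRel G.Adj], 0 < n →
      (∀ v, 3 ≤ G.degree v) → c ≤ nu G := by
  have h : ∀ (d n : ℕ) (G : SimpleGraph (Fin n)) [DecidableRel G.Adj], 3 ≤ d → 0 < n →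
      (∀ v, d ≤ G.degree v) → d - 2 * √(d - 1) ≤ nu G := fun d n G _ a b c =>
    have : Nonempty (Fin n) := ⟨⟨0, b⟩⟩
    mindeg G d a c
  refine ⟨h, _, ?_, fun n G _ => h 3 n G le_rfl⟩
  have : √(((3 : ℕ) : ℝ) - 1) < 3 / 2 := (Real.sqrt_lt' (by norm_num)).mpr (by norm_num)
  generalize √(((3 : ℕ) : ℝ) - 1) = t at *
  push_cast
  linarith

end Pool.Agent.Results.MP_3489b6_co.Lower
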